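import Mathlib

/-!
# Squad ASO, row CMO: orders of centralisers, pure group theory
-/

namespace Pool.Agent.PP.SO.H47

section

variable {V₀ G Q : Type} [CommGroup V₀] [Group G] [Group Q]

/-- the conjugation action of `V₀` on a subgroup which is normalised by `ι(V₀)` -/
def conjAct (ι : V₀ →* G) (N : Subgroup G) (hN : ∀ v, ∀ x ∈ N, ι v * x * (ι v)⁻¹ ∈ N) :
    MulAction V₀ N where
  smul v x := ⟨ι v * x * (ι v)⁻¹, hN v x x.2⟩
  one_smul x := by
    apply Subtype.ext
    change ι 1 * (x : G) * (ι 1)⁻¹ = x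
    simp
  mul_smul v w x := by
    apply Subtype.ext
    change ι (v * w) * (x : G) * (ι (v * w))⁻¹ = ι v * (ι w * (x : G) * (ι w)⁻¹) * (ι v)⁻¹
    rw [map_mul]
    group

theorem fix_mod (ℓ : ℕ) [Fact ℓ.Prime] [Finite V₀] [Finite G] (hc : Nat.card V₀ = ℓ ^ 2)
    (ι : V₀ →* G) (N : Subgroup G) (hN : ∀ v, ∀ x ∈ N, ι v * x * (ι v)⁻¹ ∈ N)
    (h1 : ∀ x ∈ N, (∀ v, ι v * x * (ι v)⁻¹ = x) → x = 1) : (ℓ : ℤ) ∣ (Nat.card N : ℤ) - 1 := by
  have hp : IsPGroup ℓ V₀ := IsPGroup.of_card hc
  letI := conjAct ι N hN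
  have hm := hp.card_modEq_card_fixedPoints (α := N)
  have hu : Nat.card (MulAction.fixedPoints V₀ N) = 1 := by
    rw [Nat.card_eq_one_iff_unique]
    refine ⟨⟨fun x y => ?_⟩, ⟨⟨1, fun v => ?_⟩⟩⟩
    · have hx : ∀ z : MulAction.fixedPoints V₀ N, (z : N) = 1 := by
        intro z
        apply Subtype.ext
        refine h1 _ z.1.2 fun v => ?_
        exact congrArg Subtype.val (z.2 v)
      apply Subtype.ext
      rw [hx x, hx y]
    · apply Subtype.ext
      change ι v * ((1 : N) : G) * (ι v)⁻¹ = ((1 : N) : G)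
      simp
  rw [hu] at hm
  have := (Nat.modEq_iff_dvd.1 hm.symm)
  simpa using this

end

/-- CMO without the surrounding definitions. -/
theorem cmo_gen (ℓ : ℕ) [Fact ℓ.Prime] (V₀ : Type) [CommGroup V₀] [Finite V₀]
    (hc : Nat.card V₀ = ℓ ^ 2) (E₀ : Subgroup (MulAut V₀)) (G : Type) [Group G] [Finite G]
    (π : G →* V₀ ⋊[E₀.subtype] E₀) (ι : V₀ →* G) (hι : ∀ v, π (ι v) = SemidirectProduct.inl v)
    (hC : Subgroup.centralizer (ι.range : Set G) ≤ ι.range) :
    Nat.card (Subgroup.centralizer (((⊤ : Subgroup V₀).map ι : Subgroup G) : Set G)) = ℓ ^ 2 ∧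
    ∀ (W : Subgroup V₀), (∀ σ ∈ E₀, (∀ w ∈ W, σ w = w) → σ = 1) →
      Nat.card (Subgroup.centralizer ((W.map ι : Subgroup G) : Set G)) =
        Nat.card (π.ker ⊓ Subgroup.centralizer (W.map ι : Set G) : Subgroup G) * ℓ ^ 2 ∧
      (ℓ : ℤ) ∣
        (Nat.card (π.ker ⊓ Subgroup.centralizer (W.map ι : Set G) : Subgroup G) : ℤ) - 1 := by
  have hinj : Function.Injective ι := by
    intro v w h
    have h' := congrArg π h
    rw [hι, hι] at h'
    exact SemidirectProduct.inl_injective h'
  have hcomm : ∀ v w, ι v * ι w = ι w * ι v := by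
    intro v w
    rw [← map_mul, ← map_mul, mul_comm]
  refine ⟨?_, ?_⟩
  · have h1 : Subgroup.centralizer (((⊤ : Subgroup V₀).map ι : Subgroup G) : Set G) = ι.range := by
      rw [← MonoidHom.range_eq_map]
      refine le_antisymm hC ?_
      rintro _ ⟨v, rfl⟩
      rw [Subgroup.mem_centralizer_iff]
      rintro _ ⟨w, rfl⟩
      exact hcomm w v
    rw [h1, ← hc]
    exact (Nat.card_congr (ι.ofInjective hinj).toEquiv).symm
  · intro W hW
    have hVC : ∀ v, ι v ∈ Subgroup.centralizer ((W.map ι : Subgroup G) : Set G) := by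
      intro v
      rw [Subgroup.mem_centralizer_iff]
      rintro _ ⟨w, -, rfl⟩
      exact hcomm w v
    have hker : ∀ x ∈ Subgroup.centralizer ((W.map ι : Subgroup G) : Set G),
        ∃ u, π x = SemidirectProduct.inl u := by
      intro x hx
      rw [Subgroup.mem_centralizer_iff] at hx
      have hφ : ∀ w ∈ W, ((π x).right : MulAut V₀) w = w := by
        intro w hw
        have h1 : ι w * x = x * ι w := hx _ ⟨w, hw, rfl⟩
        have h2 := congrArg π h1
        rw [map_mul, map_mul, hι] at h2
        have h3 := congrArg SemidirectProduct.left h2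
        rw [SemidirectProduct.mul_left, SemidirectProduct.mul_left] at h3
        simp only [SemidirectProduct.left_inl, SemidirectProduct.right_inl, map_one,
          MulAut.one_apply] at h3
        rw [mul_comm] at h3
        exact (mul_left_cancel h3).symm
      have h1 := hW _ (π x).right.2 hφ
      refine ⟨(π x).left, ?_⟩
      apply SemidirectProduct.ext
      · simp
      · apply Subtype.ext
        simpa using h1
    refine ⟨?_, ?_⟩
    · set C := Subgroup.centralizer ((W.map ι : Subgroup G) : Set G) with hCdef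
      have hi : (π.comp C.subtype).ker.index = Nat.card (π.comp C.subtype).range :=
        Subgroup.index_ker _
      have hr : (π.comp C.subtype).range =
          (SemidirectProduct.inl : V₀ →* V₀ ⋊[E₀.subtype] E₀).range := by
        apply le_antisymm
        · rintro _ ⟨x, rfl⟩
          obtain ⟨u, hu⟩ := hker x x.2
          exact ⟨u, hu.symm⟩
        · rintro _ ⟨v, rfl⟩
          exact ⟨⟨ι v, hVC v⟩, hι v⟩
      have hcr : Nat.card (π.comp C.subtype).range = ℓ ^ 2 := by
        rw [hr, ← hc]
        exact (Nat.card_congr (MonoidHom.ofInjective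
          (SemidirectProduct.inl_injective (φ := E₀.subtype))).toEquiv).symm
      have hk : Nat.card (π.comp C.subtype).ker = Nat.card (π.ker ⊓ C : Subgroup G) := by
        refine Nat.card_congr ⟨fun x => ⟨x.1.1, x.2, x.1.2⟩, fun x => ⟨⟨x.1, x.2.2⟩, x.2.1⟩, ?_, ?_⟩
        · intro x
          rfl
        · intro x
          rfl
      have hm := (π.comp C.subtype).ker.card_mul_index
      rw [hi, hcr, hk] at hm
      exact hm.symm
    · refine fix_mod ℓ hc ι _ ?_ ?_
      · rintro v x ⟨hx1, hx2⟩
        refine ⟨?_, ?_⟩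
        · have hx1' : π x = 1 := hx1
          change π (ι v * x * (ι v)⁻¹) = 1
          rw [map_mul, map_mul, hx1', map_inv]
          simp
        · exact Subgroup.mul_mem _ (Subgroup.mul_mem _ (hVC v) hx2)
            (Subgroup.inv_mem _ (hVC v))
      · rintro x ⟨hx1, -⟩ hx
        have hx1' : π x = 1 := hx1
        have hxC : x ∈ Subgroup.centralizer (ι.range : Set G) := by
          rw [Subgroup.mem_centralizer_iff]
          rintro _ ⟨v, rfl⟩
          have := hx v
          rw [mul_inv_eq_iff_eq_mul] at this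
          exact this
        obtain ⟨u, hu⟩ := hC hxC
        rw [← hu, hι] at hx1'
        have : u = 1 := by
          have h2 : (SemidirectProduct.inl u : V₀ ⋊[E₀.subtype] E₀) = SemidirectProduct.inl 1 := by
            rw [hx1', map_one]
          exact SemidirectProduct.inl_injective h2
        rw [← hu, this, map_one]

end Pool.Agent.PP.SO.H47
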