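import Pool.Agent.ASO.Stmts7
import Pool.Agent.Helper47_ASO.CMOgen

/-!
# Squad ASO, row CMO
-/

namespace Pool.Agent.PP.SO.H47

/-- **CMO**. -/
theorem cmo : CmoStmt := by
  intro ℓ _ V₀ _ _ _ hc E₀ G _ _ π ι _ _ hι hC
  exact cmo_gen ℓ V₀ hc E₀ G π ι hι hC

end Pool.Agent.PP.SO.H47
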